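import Mathlib

set_option autoImplicit false

namespace Pool.Agent.Results.MP_e3442a_co.Counterexample

/-- `λ(v)`: the independence number of the subgraph of `G` induced on the open neighbourhood
of `v`. -/
noncomputable def localIndep {V : Type} (G : SimpleGraph V) (v : V) : ℕ :=
  (G.induce (G.neighborSet v)).indepNum

/-- `ecc(v)`: the largest distance from `v` to a vertex of `G`. -/
noncomputable def ecc {V : Type} [Fintype V] (G : SimpleGraph V) (v : V) : ℕ :=
  Finset.univ.sup fun u => G.dist v u

/-- The average eccentricity. -/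
noncomputable def eccAvg {V : Type} [Fintype V] (G : SimpleGraph V) : ℚ :=
  (∑ v, (ecc G v : ℚ)) / (Fintype.card V : ℚ)

/-- `tree(G)`: the largest size of a vertex set inducing a tree. -/
noncomputable def treeNum {V : Type} (G : SimpleGraph V) : ℕ :=
  sSup {k | ∃ S : Finset V, (G.induce (S : Set V)).IsTree ∧ S.card = k}

/-- Adjacency (one direction) of the example graph on 25 vertices. -/
def lowAdj (a b : Fin 25) : Bool :=
  (a.val < b.val) &&
    ((b.val ≤ 10) || (a.val == 10 && b.val ≤ 13) || (11 ≤ a.val && b.val == 14) ||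
      (14 ≤ a.val))

/-- Adjacency of the example graph: `0, ..., 10` and `14, ..., 24` are cliques, and
`11, 12, 13` are pairwise non-adjacent common neighbours of `10` and `14`. -/
def adjB (a b : Fin 25) : Bool := lowAdj a b || lowAdj b a

/-- The example graph. -/
def ex : SimpleGraph (Fin 25) where
  Adj a b := adjB a b = true
  symm := ⟨fun a b h => by
    have : adjB b a = adjB a b := Bool.or_comm _ _
    rw [this]; exact h⟩
  loopless := ⟨fun a h => by
    simp [adjB, lowAdj] at h⟩

instance : DecidableRel ex.Adj := fun a b => inferInstanceAs (Decidable (adjB a b = true))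

theorem reachable_const {V C : Type} (G : SimpleGraph V) (c : V → C)
    (hc : ∀ a b, G.Adj a b → c a = c b) {a b : V} (h : G.Reachable a b) : c a = c b := by
  obtain ⟨p⟩ := h
  induction p with
  | nil => rfl
  | cons hadj p ih => exact (hc _ _ hadj).trans ih

theorem connected : ex.Connected := by
  have h2 : ∀ v : Fin 25, ex.Reachable v 10 := by
    have k1 : ex.Adj 14 11 ∧ ex.Adj 11 10 := by decide
    have h14 : ex.Reachable 14 10 := k1.1.reachable.trans k1.2.reachable
    have key : ∀ v : Fin 25, v = 10 ∨ ex.Adj v 10 ∨ v = 14 ∨ ex.Adj v 14 := by decide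
    intro v
    rcases key v with h | h | h | h
    · subst h; exact SimpleGraph.Reachable.refl _
    · exact h.reachable
    · subst h; exact h14
    · exact h.reachable.trans h14
  have : Nonempty (Fin 25) := ⟨0⟩
  exact ⟨fun u v => (h2 u).trans (h2 v).symm⟩

/-- Levels of the example graph. -/
def lev (v : Fin 25) : ℤ :=
  if v.val ≤ 9 then 0 else if v.val = 10 then 1 else if v.val ≤ 13 then 2
  else if v.val = 14 then 3 else 4

theorem lev_adj : ∀ a b : Fin 25, ex.Adj a b → |lev a - lev b| ≤ 1 := by
  decide +kernel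

theorem lev_walk {a b : Fin 25} (p : ex.Walk a b) : |lev a - lev b| ≤ p.length := by
  induction p with
  | nil => simp
  | @cons u v w hadj p ih =>
    rw [SimpleGraph.Walk.length_cons]
    have h1 := lev_adj u v hadj
    have h2 : |lev u - lev w| ≤ |lev u - lev v| + |lev v - lev w| := abs_sub_le _ _ _
    push_cast
    linarith

theorem lev_dist (a b : Fin 25) : |lev a - lev b| ≤ (ex.dist a b : ℤ) := by
  obtain ⟨p, hp⟩ := connected.exists_walk_length_eq_dist a b
  rw [← hp]
  exact lev_walk p

/-- Lower bounds for the eccentricities. -/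
def low (v : Fin 25) : ℕ :=
  if v.val ≤ 9 then 4 else if v.val = 10 then 3 else if v.val ≤ 13 then 2
  else if v.val = 14 then 3 else 4

theorem low_le_ecc (v : Fin 25) : low v ≤ ecc ex v := by
  have h0 : ∀ v : Fin 25, (low v : ℤ) ≤ |lev v - lev 0| ∨ (low v : ℤ) ≤ |lev v - lev 24| := by
    decide
  rcases h0 v with h | h
  · have h1 := h.trans (lev_dist v 0)
    have h2 : low v ≤ ex.dist v 0 := by exact_mod_cast h1
    exact h2.trans (Finset.le_sup (f := fun u => ex.dist v u) (Finset.mem_univ 0))
  · have h1 := h.trans (lev_dist v 24)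
    have h2 : low v ≤ ex.dist v 24 := by exact_mod_cast h1
    exact h2.trans (Finset.le_sup (f := fun u => ex.dist v u) (Finset.mem_univ 24))

theorem eccAvg_ge : (92 / 25 : ℚ) ≤ eccAvg ex := by
  unfold eccAvg
  have h1 : ∑ v, low v ≤ ∑ v, ecc ex v := Finset.sum_le_sum fun v _ => low_le_ecc v
  have h2 : ∑ v, low v = 92 := by decide
  rw [h2] at h1
  have h3 : (92 : ℚ) ≤ ∑ v, (ecc ex v : ℚ) := by exact_mod_cast h1
  have h4 : (Fintype.card (Fin 25) : ℚ) = 25 := by simp
  rw [h4]
  linarith

theorem four_le_localIndep : 4 ≤ localIndep ex 10 := by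
  classical
  have hadj : ex.Adj 10 0 ∧ ex.Adj 10 11 ∧ ex.Adj 10 12 ∧ ex.Adj 10 13 := by decide
  let s : Finset (ex.neighborSet 10) :=
    {⟨0, hadj.1⟩, ⟨11, hadj.2.1⟩, ⟨12, hadj.2.2.1⟩, ⟨13, hadj.2.2.2⟩}
  have hcard : s.card = 4 := by
    simp only [s]
    rw [Finset.card_insert_of_notMem, Finset.card_insert_of_notMem,
      Finset.card_insert_of_notMem, Finset.card_singleton] <;>
    simp [Subtype.ext_iff]
  rw [← hcard]
  apply SimpleGraph.IsIndepSet.card_le_indepNum
  have key : ∀ x y : Fin 25, (x = 0 ∨ x = 11 ∨ x = 12 ∨ x = 13) →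
      (y = 0 ∨ y = 11 ∨ y = 12 ∨ y = 13) → ¬ ex.Adj x y := by decide +kernel
  intro x hx y hy _ hxyadj
  refine key x.1 y.1 ?_ ?_ hxyadj
  · simp only [s, Finset.coe_insert, Finset.coe_singleton, Set.mem_insert_iff,
      Set.mem_singleton_iff] at hx
    rcases hx with rfl | rfl | rfl | rfl <;> simp
  · simp only [s, Finset.coe_insert, Finset.coe_singleton, Set.mem_insert_iff,
      Set.mem_singleton_iff] at hy
    rcases hy with rfl | rfl | rfl | rfl <;> simp

/-- An acyclic induced subgraph meets a clique in at most two vertices. -/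
theorem clique_le_two {V : Type} [DecidableEq V] (G : SimpleGraph V) (S T : Finset V)
    (hT : ∀ a ∈ T, ∀ b ∈ T, a ≠ b → G.Adj a b) (hTS : T ⊆ S)
    (hS : (G.induce (S : Set V)).IsAcyclic) : T.card ≤ 2 := by
  by_contra hcon
  obtain ⟨U, hUT, hU⟩ := Finset.exists_subset_card_eq (by omega : 3 ≤ T.card)
  have hfree := hS.cliqueFree (le_refl 3)
  refine hfree (U.subtype (fun x => x ∈ (S : Set V))) ?_
  constructor
  · intro x hx y hy hxy
    have hx' : x.1 ∈ U := by simpa using hx
    have hy' : y.1 ∈ U := by simpa using hy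
    exact hT x.1 (hUT hx') y.1 (hUT hy') (fun h => hxy (Subtype.ext h))
  · rw [Finset.card_subtype, Finset.filter_true_of_mem, hU]
    intro x hx
    exact hTS (hUT hx)

/-- In an acyclic graph two distinct vertices have at most one common neighbour. -/
theorem common_nbr {V : Type} (G : SimpleGraph V) (hG : G.IsAcyclic) {a b x y : V}
    (hab : a ≠ b) (hax : G.Adj a x) (hxb : G.Adj x b) (hay : G.Adj a y) (hyb : G.Adj y b) :
    x = y := by
  let p : G.Walk a b := .cons hax (.cons hxb .nil)
  let q : G.Walk a b := .cons hay (.cons hyb .nil)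
  have hp : p.IsPath := by
    simp [p, SimpleGraph.Walk.cons_isPath_iff, hax.ne, hab, hxb.ne]
  have hq : q.IsPath := by
    simp [q, SimpleGraph.Walk.cons_isPath_iff, hay.ne, hab, hyb.ne]
  have h := hG.path_unique ⟨p, hp⟩ ⟨q, hq⟩
  have h' : p = q := congrArg Subtype.val h
  have h2 : p.support = q.support := by rw [h']
  simp [p, q] at h2
  exact h2

theorem tree_le (S : Finset (Fin 25)) (hS : (ex.induce (S : Set (Fin 25))).IsTree) :
    S.card ≤ 5 := by
  classical
  have hac := hS.IsAcyclic
  -- three parts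
  have hsplit : S.card = (S.filter fun v => v.val ≤ 10).card +
      (S.filter fun v => 11 ≤ v.val ∧ v.val ≤ 13).card + (S.filter fun v => 14 ≤ v.val).card := by
    rw [← Finset.card_union_of_disjoint, ← Finset.card_union_of_disjoint]
    · congr 1
      ext v
      simp only [Finset.mem_union, Finset.mem_filter]
      constructor
      · intro h
        rcases Nat.lt_or_ge 10 v.val with h1 | h1
        · rcases Nat.lt_or_ge 13 v.val with h2 | h2
          · exact Or.inr ⟨h, h2⟩
          · exact Or.inl (Or.inr ⟨h, h1, h2⟩)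
        · exact Or.inl (Or.inl ⟨h, h1⟩)
      · rintro ((h | h) | h) <;> exact h.1
    · rw [Finset.disjoint_left]
      intro v hv hv'
      simp only [Finset.mem_union, Finset.mem_filter] at hv hv'
      omega
    · rw [Finset.disjoint_left]
      intro v hv hv'
      simp only [Finset.mem_filter] at hv hv'
      omega
  have hF3 : (S.filter fun v => 11 ≤ v.val ∧ v.val ≤ 13).card ≤ 3 := by
    have : (S.filter fun v => 11 ≤ v.val ∧ v.val ≤ 13) ⊆
        Finset.univ.filter fun v : Fin 25 => 11 ≤ v.val ∧ v.val ≤ 13 :=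
      Finset.filter_subset_filter _ (Finset.subset_univ _)
    refine (Finset.card_le_card this).trans ?_
    decide
  have hA : (S.filter fun v => v.val ≤ 10).card ≤ 2 := by
    apply clique_le_two ex S _ _ (Finset.filter_subset _ _) hac
    intro a ha b hb hab
    have key : ∀ a b : Fin 25, a.val ≤ 10 → b.val ≤ 10 → a ≠ b → ex.Adj a b := by
      decide +kernel
    exact key a b (Finset.mem_filter.1 ha).2 (Finset.mem_filter.1 hb).2 hab
  have hB : (S.filter fun v => 14 ≤ v.val).card ≤ 2 := by
    apply clique_le_two ex S _ _ (Finset.filter_subset _ _) hac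
    intro a ha b hb hab
    have key : ∀ a b : Fin 25, 14 ≤ a.val → 14 ≤ b.val → a ≠ b → ex.Adj a b := by
      decide +kernel
    exact key a b (Finset.mem_filter.1 ha).2 (Finset.mem_filter.1 hb).2 hab
  by_cases h10 : (10 : Fin 25) ∈ S
  · by_cases h14 : (14 : Fin 25) ∈ S
    · have hF : (S.filter fun v => 11 ≤ v.val ∧ v.val ≤ 13).card ≤ 1 := by
        rw [Finset.card_le_one]
        intro x hx y hy
        rw [Finset.mem_filter] at hx hy
        have key : ∀ v : Fin 25, 11 ≤ v.val ∧ v.val ≤ 13 → ex.Adj 10 v ∧ ex.Adj v 14 := by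
          decide
        have h := common_nbr (ex.induce (S : Set (Fin 25))) hac
          (a := ⟨10, h10⟩) (b := ⟨14, h14⟩) (x := ⟨x, hx.1⟩) (y := ⟨y, hy.1⟩)
          (by intro h; simp at h) (key x hx.2).1 (key x hx.2).2 (key y hy.2).1 (key y hy.2).2
        exact congrArg Subtype.val h
      omega
    · -- no `14`
      by_cases hne : (S.filter fun v => 14 ≤ v.val).card = 0
      · omega
      · obtain ⟨x, hx⟩ := Finset.card_pos.1 (Nat.pos_of_ne_zero hne)
        rw [Finset.mem_filter] at hx
        have h := reachable_const (ex.induce (S : Set (Fin 25)))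
          (fun v => decide (14 ≤ v.1.val)) (fun a b hab => by
            have key : ∀ a b : Fin 25, ex.Adj a b → a ≠ 14 → b ≠ 14 →
              decide (14 ≤ a.val) = decide (14 ≤ b.val) := by decide +kernel
            exact key a.1 b.1 hab (fun h => h14 (h ▸ a.2)) (fun h => h14 (h ▸ b.2)))
          (hS.connected.preconnected ⟨x, hx.1⟩ ⟨10, h10⟩)
        have hx2 := hx.2
        simp [hx2] at h
  · -- no `10`
    by_cases hne : (S.filter fun v => v.val ≤ 10).card = 0
    · omega
    · obtain ⟨x, hx⟩ := Finset.card_pos.1 (Nat.pos_of_ne_zero hne)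
      rw [Finset.mem_filter] at hx
      have hall : S = S.filter fun v => v.val ≤ 10 := by
        symm
        rw [Finset.filter_eq_self]
        intro y hy
        have h := reachable_const (ex.induce (S : Set (Fin 25)))
          (fun v => decide (v.1.val ≤ 10)) (fun a b hab => by
            have key : ∀ a b : Fin 25, ex.Adj a b → a ≠ 10 → b ≠ 10 →
              decide (a.val ≤ 10) = decide (b.val ≤ 10) := by decide +kernel
            exact key a.1 b.1 hab (fun h => h10 (h ▸ a.2)) (fun h => h10 (h ▸ b.2)))
          (hS.connected.preconnected ⟨x, hx.1⟩ ⟨y, hy⟩)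
        have hx2 := hx.2
        simp only [hx2, decide_true] at h
        exact of_decide_eq_true h.symm
      rw [hall]
      omega

theorem treeNum_le : treeNum ex ≤ 5 := by
  unfold treeNum
  apply csSup_le'
  rintro k ⟨S, hS, rfl⟩
  exact tree_le S hS

/-- There is a connected simple graph `G` on 25 vertices with
`tree(G) < ⌈ecc_avg(G) + (1/3) max_v λ(v)⌉`. -/
theorem result : ∃ G : SimpleGraph (Fin 25), G.Connected ∧
    (treeNum G : ℤ) < ⌈eccAvg G + (1 / 3 : ℚ) * ((Finset.univ.sup (localIndep G) : ℕ) : ℚ)⌉ := by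
  refine ⟨ex, connected, ?_⟩
  rw [Int.lt_ceil]
  have h1 : (4 : ℚ) ≤ ((Finset.univ.sup (localIndep ex) : ℕ) : ℚ) := by
    have : 4 ≤ Finset.univ.sup (localIndep ex) :=
      four_le_localIndep.trans (Finset.le_sup (f := localIndep ex) (Finset.mem_univ 10))
    exact_mod_cast this
  have h2 := eccAvg_ge
  have h3 : ((treeNum ex : ℤ) : ℚ) ≤ 5 := by exact_mod_cast treeNum_le
  linarith

end Pool.Agent.Results.MP_e3442a_co.Counterexample
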